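import Mathlib
import Pool.Agent.H27.Disc

set_option autoImplicit false

namespace Pool.Agent.Results.MP_726576_nt.ItemThree

open Pool.Agent.H27.Disc

theorem result : Bad {k | ∃ n : ℕ, 1 ≤ n ∧ k = 2 ^ n + 1} :=
  bad_pow

end Pool.Agent.Results.MP_726576_nt.ItemThree
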