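import Mathlib
import Pool.Agent.H27.Disc

set_option autoImplicit false

namespace Pool.Agent.Results.MP_726576_nt.ItemTwo

open Pool.Agent.H27.Disc

theorem result :
    Bad {k | ∃ n : ℕ, 1 ≤ n ∧ k = n ^ 2 + 1} ∧ Bad {k | ∃ n : ℕ, 1 ≤ n ∧ k + 1 = n ^ 2} :=
  ⟨bad_plus, bad_minus⟩

end Pool.Agent.Results.MP_726576_nt.ItemTwo
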